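import Pool.Agent.L7h93.TH.Stm

/-!
# Project TH: double moments depend on the moments only
-/

set_option autoImplicit false

namespace Pool.Agent.L7h35.TH

open Pool.Agent.L7h93.TH Finset MvPolynomial

/-- product of two absolutely convergent sums -/
theorem mt {α β : Type*} (f : α → ℂ) (h : β → ℂ) (hf : Summable fun x => ‖f x‖)
    (hh : Summable fun x => ‖h x‖) :
    (∑' x, f x) * (∑' y, h y) = ∑' z : α × β, f z.1 * h z.2 ∧
      Summable fun z : α × β => f z.1 * h z.2 :=
  ⟨tsum_mul_tsum_of_summable_norm hf hh, summable_mul_of_summable_norm hf hh⟩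

/-- a polynomial term of the functional -/
noncomputable def tm {g : ℕ} (p : Lat g → ℂ) (U : MvPolynomial (Fin g) ℂ) (s : Lat g) : ℂ :=
  p s * eval (fun i => (s i : ℂ)) U

theorem ml_tm {g : ℕ} (p : Lat g → ℂ) (U : MvPolynomial (Fin g) ℂ) : ml p U = ∑' s, tm p U s := rfl

/-- the sum of the values of a product in separated variables -/
theorem sep {g : ℕ} (hS : S_SUM) (p : Lat g → ℂ) (hp : Dec p) {J : Type*} (T : Finset J)
    (F : Lat g → Lat g → ℂ) (U V : J → MvPolynomial (Fin g) ℂ) (e : J → ℂ)
    (hF : ∀ n m : Lat g, F n m = ∑ j ∈ T, e j * (eval (fun i => (n i : ℂ)) (U j) *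
      eval (fun i => (m i : ℂ)) (V j))) :
    ∑' nm : Lat g × Lat g, p nm.1 * p nm.2 * F nm.1 nm.2 =
      ∑ j ∈ T, e j * (ml p (U j) * ml p (V j)) := by
  have hs : ∀ U, Summable fun s => ‖tm p U s‖ := fun U => hS g p hp U
  have h1 : ∀ j, ml p (U j) * ml p (V j) = ∑' x : Lat g × Lat g,
      tm p (U j) x.1 * tm p (V j) x.2 := fun j => by
    rw [ml_tm, ml_tm]
    exact (mt (tm p (U j)) (tm p (V j)) (hs (U j)) (hs (V j))).1
  have h2 : ∀ j, Summable fun x : Lat g × Lat g => tm p (U j) x.1 * tm p (V j) x.2 :=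
    fun j => (mt (tm p (U j)) (tm p (V j)) (hs (U j)) (hs (V j))).2
  have h3 : ∑ j ∈ T, e j * (ml p (U j) * ml p (V j)) = ∑' x : Lat g × Lat g, ∑ j ∈ T, e j *
      (tm p (U j) x.1 * tm p (V j) x.2) := by
    rw [Summable.tsum_finsetSum fun j _ => (h2 j).mul_left (e j)]
    refine Finset.sum_congr rfl fun j _ => ?_
    rw [h1 j, tsum_mul_left]
  rw [h3]
  refine tsum_congr fun x => ?_
  rw [hF, Finset.mul_sum]
  refine Finset.sum_congr rfl fun j _ => ?_
  simp only [tm]
  ring

/-- substitution of linear forms does not raise the degree -/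
theorem deg_aeval {g : ℕ} {τ : Type*} (f : Fin g → MvPolynomial τ ℂ)
    (hf : ∀ i, (f i).totalDegree ≤ 1) (P : MvPolynomial (Fin g) ℂ) :
    (aeval f P).totalDegree ≤ P.totalDegree := by
  rw [aeval_def, eval₂_eq']
  refine (totalDegree_finsetSum _ _).trans (Finset.sup_le fun d hd => ?_)
  refine (totalDegree_mul _ _).trans ?_
  have h1 : (algebraMap ℂ (MvPolynomial τ ℂ) (coeff d P)).totalDegree = 0 := totalDegree_C _
  rw [h1, zero_add]
  refine (totalDegree_finsetProd _ _).trans ?_
  have h2 : ∑ i, (f i ^ d i).totalDegree ≤ ∑ i, d i := by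
    refine Finset.sum_le_sum fun i _ => ?_
    refine (totalDegree_pow _ _).trans ?_
    calc d i * (f i).totalDegree ≤ d i * 1 := Nat.mul_le_mul_left _ (hf i)
      _ = d i := mul_one _
  refine h2.trans ?_
  have h3 := le_totalDegree hd
  rwa [Finsupp.sum_fintype _ _ (fun _ => rfl)] at h3

/-- the monomials of a finite family of exponents -/
theorem deg_prod {g : ℕ} (e : Fin g → ℕ) :
    (∏ i, (X i : MvPolynomial (Fin g) ℂ) ^ e i).totalDegree ≤ ∑ i, e i := by
  refine (totalDegree_finsetProd _ _).trans (Finset.sum_le_sum fun i _ => ?_)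
  refine (totalDegree_pow _ _).trans ?_
  rw [totalDegree_X, mul_one]

/-- double moments depend on the moments only -/
theorem s_EXPD (hS : S_SUM) : S_EXPD := by
  intro g P R
  have hX : ∀ i : Fin g, ((X (Sum.inl i) : MvPolynomial (Fin g ⊕ Fin g) ℂ) +
      X (Sum.inr i)).totalDegree ≤ 1 := fun i => by
    refine (totalDegree_add _ _).trans ?_
    rw [totalDegree_X, totalDegree_X, max_self]
  have hY : ∀ i : Fin g, ((X (Sum.inl i) : MvPolynomial (Fin g ⊕ Fin g) ℂ) -
      X (Sum.inr i)).totalDegree ≤ 1 := fun i => by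
    refine (totalDegree_sub _ _).trans ?_
    rw [totalDegree_X, totalDegree_X, max_self]
  obtain ⟨W, hW⟩ : ∃ W : MvPolynomial (Fin g ⊕ Fin g) ℂ,
      W = aeval (fun i => X (Sum.inl i) + X (Sum.inr i)) P *
        aeval (fun i => X (Sum.inl i) - X (Sum.inr i)) R := ⟨_, rfl⟩
  have hdeg : W.totalDegree ≤ P.totalDegree + R.totalDegree := by
    rw [hW]
    exact (totalDegree_mul _ _).trans (add_le_add (deg_aeval _ hX P) (deg_aeval _ hY R))
  refine ⟨{d // d ∈ W.support}, inferInstance, fun d => C (coeff d.1 W) * ∏ i, X i ^ d.1 (Sum.inl i),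
    fun d => ∏ i, X i ^ d.1 (Sum.inr i), fun d => ?_, fun p hp => ?_⟩
  · have h1 : (C (coeff d.1 W) * ∏ i, (X i : MvPolynomial (Fin g) ℂ) ^ d.1 (Sum.inl i)).totalDegree ≤
        ∑ i, d.1 (Sum.inl i) := by
      refine (totalDegree_mul _ _).trans ?_
      rw [totalDegree_C, zero_add]
      exact deg_prod _
    have h2 := deg_prod fun i => d.1 (Sum.inr i)
    have h3 := le_totalDegree d.2
    rw [Finsupp.sum_fintype _ _ (fun _ => rfl), Fintype.sum_sum_type] at h3
    exact (add_le_add h1 h2).trans (h3.trans hdeg)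
  · have h := sep hS p hp (Finset.univ : Finset {d // d ∈ W.support})
      (fun n m => eval (fun i => ((n i : ℂ) + m i)) P * eval (fun i => ((n i : ℂ) - m i)) R)
      (fun d => C (coeff d.1 W) * ∏ i, X i ^ d.1 (Sum.inl i))
      (fun d => ∏ i, X i ^ d.1 (Sum.inr i)) (fun _ => 1) ?_
    · rw [GG, h]
      refine Finset.sum_congr rfl fun j _ => one_mul _
    · intro n m
      have e1 : eval (fun i => ((n i : ℂ) + m i)) P * eval (fun i => ((n i : ℂ) - m i)) R =
          eval (Sum.elim (fun i => (n i : ℂ)) fun i => (m i : ℂ)) W := by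
        rw [hW, map_mul]
        congr 1
        · rw [aeval_def, eval₂_eq', eval_eq', map_sum]
          refine Finset.sum_congr rfl fun d _ => ?_
          rw [map_mul, map_prod]
          congr 1
          · exact (eval_C _).symm
          · refine Finset.prod_congr rfl fun i _ => ?_
            simp
        · rw [aeval_def, eval₂_eq', eval_eq', map_sum]
          refine Finset.sum_congr rfl fun d _ => ?_
          rw [map_mul, map_prod]
          congr 1
          · exact (eval_C _).symm
          · refine Finset.prod_congr rfl fun i _ => ?_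
            simp
      rw [e1, eval_eq', ← Finset.sum_coe_sort]
      refine Finset.sum_congr rfl fun d _ => ?_
      rw [Fintype.prod_sum_type]
      simp only [Sum.elim_inl, Sum.elim_inr, map_mul, eval_C, map_prod, map_pow, eval_X]
      ring

end Pool.Agent.L7h35.TH
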