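import Pool.Agent.L7h35.TH.Expd

/-!
# Project TH: double moments of powers of one linear form
-/

set_option autoImplicit false

namespace Pool.Agent.L7h35.TH

open Pool.Agent.L7h93.TH Finset MvPolynomial

/-- multiplication of a form in two variables by `X + s Y` -/
theorem form_step (N : ℕ) (e : ℕ → ℂ) (c s : ℂ) (h0 : e 0 = 1) (hN : e N = c) (F : ℂ → ℂ → ℂ)
    (hF : ∀ x y, F x y = ∑ j ∈ range (N + 1), e j * (x ^ (N - j) * y ^ j)) :
    ∃ e' : ℕ → ℂ, e' 0 = 1 ∧ e' (N + 1) = s * c ∧ ∀ x y, F x y * (x + s * y) =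
      ∑ j ∈ range (N + 1 + 1), e' j * (x ^ (N + 1 - j) * y ^ j) := by
  refine ⟨fun j => (if j ≤ N then e j else 0) + s * (if 1 ≤ j then e (j - 1) else 0), ?_, ?_,
    fun x y => ?_⟩
  · simp [h0]
  · simp [hN]
  · have e1 : ∑ j ∈ range (N + 1 + 1), (if j ≤ N then e j else 0) * (x ^ (N + 1 - j) * y ^ j) =
        F x y * x := by
      rw [sum_range_succ, if_neg (by omega), zero_mul, add_zero, hF, Finset.sum_mul]
      refine Finset.sum_congr rfl fun j hj => ?_
      have hj' : j ≤ N := by
        rw [mem_range] at hj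
        omega
      rw [if_pos hj', show N + 1 - j = (N - j) + 1 by omega]
      ring
    have e2 : ∑ j ∈ range (N + 1 + 1), (if 1 ≤ j then e (j - 1) else 0) *
        (x ^ (N + 1 - j) * y ^ j) = F x y * y := by
      rw [sum_range_succ', if_neg (by omega), zero_mul, add_zero, hF, Finset.sum_mul]
      refine Finset.sum_congr rfl fun j hj => ?_
      rw [if_pos (by omega), show N + 1 - (j + 1) = N - j by omega, Nat.add_sub_cancel]
      ring
    rw [mul_add, ← e1, show F x y * (s * y) = s * (F x y * y) by ring, ← e2, Finset.mul_sum,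
      ← Finset.sum_add_distrib]
    refine Finset.sum_congr rfl fun j _ => ?_
    ring

/-- the expansion of `(x + y) ^ a * (x - y) ^ b` -/
theorem form_exp (a b : ℕ) : ∃ e : ℕ → ℂ, e 0 = 1 ∧ e (a + b) = (-1) ^ b ∧
    ∀ x y : ℂ, (x + y) ^ a * (x - y) ^ b =
      ∑ j ∈ range (a + b + 1), e j * (x ^ (a + b - j) * y ^ j) := by
  induction b with
  | zero =>
    induction a with
    | zero => exact ⟨fun _ => 1, rfl, by simp, fun x y => by simp⟩
    | succ a ih =>
      obtain ⟨e, h0, h1, h2⟩ := ih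
      obtain ⟨e', h0', h1', h2'⟩ := form_step (a + 0) e _ 1 h0 h1 _ h2
      refine ⟨e', h0', ?_, fun x y => ?_⟩
      · rw [show a + 1 + 0 = a + 0 + 1 by omega, h1']
        simp
      · have := h2' x y
        rw [show a + 1 + 0 = a + 0 + 1 by omega, ← this]
        ring
  | succ b ih =>
    obtain ⟨e, h0, h1, h2⟩ := ih
    obtain ⟨e', h0', h1', h2'⟩ := form_step (a + b) e _ (-1) h0 h1 _ h2
    refine ⟨e', h0', ?_, fun x y => ?_⟩
    · rw [show a + (b + 1) = a + b + 1 by omega, h1', pow_succ]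
      ring
    · have := h2' x y
      rw [show a + (b + 1) = a + b + 1 by omega, ← this]
      ring

theorem eval_lf {g : ℕ} (v x : Sp g) : eval x (lf v) = ∑ i, v i * x i := by
  rw [lf, map_sum]
  refine Finset.sum_congr rfl fun i _ => ?_
  rw [map_mul, eval_C, eval_X]

/-- double moments of powers of one linear form -/
theorem s_EXPV (hS : S_SUM) : S_EXPV := by
  intro a b hb hab
  obtain ⟨e, h0, h1, h2⟩ := form_exp a b
  rw [hb.neg_one_pow] at h1
  refine ⟨e, fun g v p hp hone => ?_⟩
  have h := sep hS p hp (range (a + b + 1))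
      (fun n m => eval (fun i => ((n i : ℂ) + m i)) (lf v ^ a) *
        eval (fun i => ((n i : ℂ) - m i)) (lf v ^ b))
      (fun j => lf v ^ (a + b - j)) (fun j => lf v ^ j) e ?_
  · rw [GG, h, sum_range_succ, Finset.range_eq_Ico, Finset.sum_eq_sum_Ico_succ_bot (by omega), h0, h1]
    rw [Nat.sub_zero, Nat.sub_self, pow_zero, hone]
    have h3 : ∑ k ∈ Ico (0 + 1) (a + b), e k * (ml p (lf v ^ (a + b - k)) * ml p (lf v ^ k)) =
        ∑ j ∈ Ico 1 (a + b), e j * ml p (lf v ^ (a + b - j)) * ml p (lf v ^ j) := by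
      rw [zero_add]
      exact Finset.sum_congr rfl fun j _ => (mul_assoc _ _ _).symm
    rw [h3]
    ring
  · intro n m
    have e1 : eval (fun i => ((n i : ℂ) + m i)) (lf v) =
        eval (fun i => (n i : ℂ)) (lf v) + eval (fun i => (m i : ℂ)) (lf v) := by
      rw [eval_lf, eval_lf, eval_lf, ← Finset.sum_add_distrib]
      exact Finset.sum_congr rfl fun i _ => by ring
    have e2 : eval (fun i => ((n i : ℂ) - m i)) (lf v) =
        eval (fun i => (n i : ℂ)) (lf v) - eval (fun i => (m i : ℂ)) (lf v) := by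
      rw [eval_lf, eval_lf, eval_lf, ← Finset.sum_sub_distrib]
      exact Finset.sum_congr rfl fun i _ => by ring
    simp only [map_pow]
    rw [e1, e2, h2]

end Pool.Agent.L7h35.TH
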