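import Pool.Agent.L7h93.TH.Stm

/-!
# Project TH: the factorization of the double moments
-/

set_option autoImplicit false

namespace Pool.Agent.L7h35.TH

open Pool.Agent.L7h93.TH Pool.Agent.Results.MP_e16cda_ag.ThreeMomentsFail Finset

/-- the parallelogram law -/
theorem Q_par {g : ℕ} (B : Matrix (Fin g) (Fin g) ℂ) (n m : Lat g) :
    Q B (n + m) + Q B (n - m) = 2 * Q B n + 2 * Q B m := by
  simp only [Q, Finset.mul_sum, ← Finset.sum_add_distrib]
  refine Finset.sum_congr rfl fun i _ => Finset.sum_congr rfl fun j _ => ?_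
  simp only [Pi.add_apply, Pi.sub_apply]
  push_cast
  ring

theorem dot_add {g : ℕ} (n m : Lat g) (u : Sp g) : dot (n + m) u = dot n u + dot m u := by
  simp only [dot, ← Finset.sum_add_distrib]
  refine Finset.sum_congr rfl fun i _ => ?_
  simp only [Pi.add_apply]
  push_cast
  ring

/-- the exponential factor -/
noncomputable def ex {g : ℕ} (u : Sp g) (B : Matrix (Fin g) (Fin g) ℂ) (s : Lat g) : ℂ :=
  Complex.exp (2 * Real.pi * dot s u - (Real.pi / 2) * Q B s)

theorem weight_mul {g : ℕ} (u : Sp g) (B : Matrix (Fin g) (Fin g) ℂ) (n m : Lat g) :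
    weight u B n * weight u B m = ex u B (n + m) * ex 0 B (n - m) := by
  have h1 := Q_par B n m
  have h2 := dot_add n m u
  have h3 : dot (n - m) (0 : Sp g) = 0 := by simp [dot]
  have hn : (∑ i, (n i : ℂ) * u i) = dot n u := rfl
  have hm : (∑ i, (m i : ℂ) * u i) = dot m u := rfl
  have hn' : (∑ i, ∑ j, (n i : ℂ) * B i j * (n j : ℂ)) = Q B n := rfl
  have hm' : (∑ i, ∑ j, (m i : ℂ) * B i j * (m j : ℂ)) = Q B m := rfl
  rw [weight, weight, ex, ex, ← Complex.exp_add, ← Complex.exp_add, hn, hm, hn', hm', h2, h3]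
  congr 1
  linear_combination (-(Real.pi : ℂ) / 2) * (-h1)

/-- the residue class modulo two -/
def cl {g : ℕ} (s : Lat g) : Fin g → ZMod 2 := fun i => ((s i : ℤ) : ZMod 2)

theorem cf_eq {g : ℕ} (u : Sp g) (B : Matrix (Fin g) (Fin g) ℂ) (σ : Fin g → ZMod 2) (s : Lat g) :
    cf u B σ s = if cl s = σ then ex u B s else 0 := rfl

/-- sums and differences -/
def sd {g : ℕ} (x : Lat g × Lat g) : Lat g × Lat g := (x.1 + x.2, x.1 - x.2)

theorem sd_inj {g : ℕ} : Function.Injective (sd (g := g)) := by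
  rintro ⟨a, b⟩ ⟨c, d⟩ h
  simp only [sd, Prod.mk.injEq] at h
  obtain ⟨h1, h2⟩ := h
  have h3 : ∀ i, a i = c i ∧ b i = d i := fun i => by
    have e1 := congrFun h1 i
    have e2 := congrFun h2 i
    simp only [Pi.add_apply, Pi.sub_apply] at e1 e2
    constructor <;> omega
  ext i
  · exact (h3 i).1
  · exact (h3 i).2

theorem cl_range {g : ℕ} (x : Lat g × Lat g) (h : cl x.1 = cl x.2) : x ∈ Set.range (sd (g := g)) := by
  obtain ⟨a, b⟩ := x
  have h2 : ∀ i, (2 : ℤ) ∣ b i - a i := fun i => by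
    have e := congrFun h i
    simp only [cl] at e
    have := (ZMod.intCast_eq_intCast_iff_dvd_sub (a i) (b i) 2).1 e
    simpa using this
  refine ⟨(fun i => (a i + b i) / 2, fun i => (a i - b i) / 2), ?_⟩
  simp only [sd, Prod.mk.injEq]
  constructor
  · funext i
    have := h2 i
    simp only [Pi.add_apply]
    omega
  · funext i
    have := h2 i
    simp only [Pi.sub_apply]
    omega

theorem cl_sd {g : ℕ} (x : Lat g × Lat g) : cl (sd x).1 = cl (sd x).2 := by
  funext i
  simp only [cl, sd, Pi.add_apply, Pi.sub_apply]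
  rw [ZMod.intCast_eq_intCast_iff_dvd_sub]
  exact ⟨- x.2 i, by push_cast; ring⟩

/-- product of two absolutely convergent sums -/
theorem mtf {α β : Type*} (f : α → ℂ) (h : β → ℂ) (hf : Summable fun x => ‖f x‖)
    (hh : Summable fun x => ‖h x‖) :
    (∑' x, f x) * (∑' y, h y) = ∑' z : α × β, f z.1 * h z.2 ∧
      Summable fun z : α × β => f z.1 * h z.2 :=
  ⟨tsum_mul_tsum_of_summable_norm hf hh, summable_mul_of_summable_norm hf hh⟩

/-- a polynomial term of the functional -/
noncomputable def tmf {g : ℕ} (p : Lat g → ℂ) (U : MvPolynomial (Fin g) ℂ) (s : Lat g) : ℂ :=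
  p s * MvPolynomial.eval (fun i => (s i : ℂ)) U

theorem ml_tmf {g : ℕ} (p : Lat g → ℂ) (U : MvPolynomial (Fin g) ℂ) :
    ml p U = ∑' s, tmf p U s := rfl

/-- the factorization of the double moments -/
theorem s_FAC (hD : S_DCF) (hS : S_SUM) : S_FAC := by
  intro g B hB u P R
  have hA : ∀ σ, Summable fun s => ‖tmf (cf u B σ) P s‖ :=
    fun σ => hS g _ ((hD g B hB u).2 σ) P
  have hA' : ∀ σ, Summable fun s => ‖tmf (cf 0 B σ) R s‖ :=
    fun σ => hS g _ ((hD g B hB 0).2 σ) R
  have h1 : ∀ σ, ml (cf u B σ) P * ml (cf 0 B σ) R = ∑' x : Lat g × Lat g,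
      tmf (cf u B σ) P x.1 * tmf (cf 0 B σ) R x.2 := fun σ => by
    rw [ml_tmf, ml_tmf]
    exact (mtf (tmf (cf u B σ) P) (tmf (cf 0 B σ) R) (hA σ) (hA' σ)).1
  have h2 : ∀ σ, Summable fun x : Lat g × Lat g =>
      tmf (cf u B σ) P x.1 * tmf (cf 0 B σ) R x.2 := fun σ =>
    (mtf (tmf (cf u B σ) P) (tmf (cf 0 B σ) R) (hA σ) (hA' σ)).2
  have h3 : ∑ σ : Fin g → ZMod 2, ml (cf u B σ) P * ml (cf 0 B σ) R =
      ∑' x : Lat g × Lat g, if cl x.1 = cl x.2 then
        (ex u B x.1 * MvPolynomial.eval (fun i => (x.1 i : ℂ)) P) *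
        (ex 0 B x.2 * MvPolynomial.eval (fun i => (x.2 i : ℂ)) R) else 0 := by
    rw [Finset.sum_congr rfl fun σ _ => h1 σ, ← Summable.tsum_finsetSum fun σ _ => h2 σ]
    refine tsum_congr fun x => ?_
    rw [Finset.sum_eq_single (cl x.1)]
    · rw [tmf, tmf, cf_eq, cf_eq, if_pos rfl]
      by_cases hc : cl x.1 = cl x.2
      · rw [if_pos hc, if_pos hc.symm]
      · rw [if_neg hc, if_neg (fun e => hc e.symm)]
        ring
    · intro σ _ hσ
      rw [tmf, cf_eq, if_neg (fun e => hσ e.symm)]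
      ring
    · intro h
      exact absurd (Finset.mem_univ _) h
  rw [h3, ← (sd_inj (g := g)).tsum_eq, GG]
  · refine tsum_congr fun x => ?_
    rw [if_pos (cl_sd x), weight_mul]
    have e1 : (fun i => ((x.1 i : ℂ) + x.2 i)) = fun i => (((sd x).1 i : ℤ) : ℂ) := by
      funext i
      simp [sd]
    have e2 : (fun i => ((x.1 i : ℂ) - x.2 i)) = fun i => (((sd x).2 i : ℤ) : ℂ) := by
      funext i
      simp [sd]
    rw [e1, e2]
    simp only [sd]
    ring
  · intro x hx
    rw [Function.mem_support] at hx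
    by_cases hc : cl x.1 = cl x.2
    · exact cl_range x hc
    · exact absurd (if_neg hc) hx

end Pool.Agent.L7h35.TH
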