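import Pool.Agent.L7h93.TH.Stm

/-!
# Project TH: polarization
-/

set_option autoImplicit false

namespace Pool.Agent.L7h35.TH

open Pool.Agent.L7h93.TH Finset MvPolynomial

theorem ml_sum {g : ℕ} (hS : S_SUM) (p : Lat g → ℂ) (hp : Dec p) {J : Type*} (T : Finset J)
    (e : J → ℂ) (U : J → MvPolynomial (Fin g) ℂ) :
    ml p (∑ j ∈ T, C (e j) * U j) = ∑ j ∈ T, e j * ml p (U j) := by
  have h1 : ∀ j, Summable fun s : Lat g => p s * eval (fun i => (s i : ℂ)) (U j) :=
    fun j => (hS g p hp (U j)).of_norm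
  have h2 : ∑ j ∈ T, e j * ml p (U j) =
      ∑' s : Lat g, ∑ j ∈ T, e j * (p s * eval (fun i => (s i : ℂ)) (U j)) := by
    rw [Summable.tsum_finsetSum fun j _ => (h1 j).mul_left (e j)]
    refine Finset.sum_congr rfl fun j _ => ?_
    rw [tsum_mul_left, ml]
  rw [h2, ml]
  refine tsum_congr fun s => ?_
  rw [map_sum, Finset.mul_sum]
  refine Finset.sum_congr rfl fun j _ => ?_
  rw [map_mul, eval_C]
  ring

/-- the monomial with the exponents `γ` -/
noncomputable def mo {g : ℕ} (γ : Fin g → ℕ) : MvPolynomial (Fin g) ℂ := ∏ i, X i ^ γ i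

theorem lf_pow {g : ℕ} (v : Sp g) (k : ℕ) : lf v ^ k =
    ∑ γ ∈ piAntidiag (univ : Finset (Fin g)) k,
      C ((Nat.multinomial univ γ : ℂ) * ∏ i, v i ^ γ i) * mo γ := by
  rw [lf, sum_pow_eq_sum_piAntidiag]
  refine Finset.sum_congr rfl fun γ _ => ?_
  rw [mo, map_mul, map_prod, map_natCast, mul_assoc, ← Finset.prod_mul_distrib]
  congr 1
  refine Finset.prod_congr rfl fun i _ => ?_
  rw [mul_pow, map_pow]

/-- polarization -/
theorem s_POL (hS : S_SUM) : S_POL := by
  intro g k p p' hp hp' hk hv P hP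
  have hmo : ∀ γ : Fin g → ℕ, ∑ i, γ i ≤ k + 1 → ml p (mo γ) = ml p' (mo γ) := by
    intro γ hγ
    rcases Nat.lt_or_ge (∑ i, γ i) (k + 1) with h | h
    · refine hk _ ?_
      refine (totalDegree_finsetProd _ _).trans ?_
      refine (Finset.sum_le_sum fun i _ => (totalDegree_pow _ _).trans ?_).trans (by omega : ∑ i, γ i ≤ k)
      rw [totalDegree_X, mul_one]
    · have hγ' : ∑ i, γ i = k + 1 := le_antisymm hγ h
      obtain ⟨W, hW⟩ : ∃ W : MvPolynomial (Fin g) ℂ, W =
          ∑ δ ∈ piAntidiag (univ : Finset (Fin g)) (k + 1),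
            monomial (Finsupp.equivFunOnFinite.symm δ)
              ((Nat.multinomial univ δ : ℂ) * (ml p (mo δ) - ml p' (mo δ))) := ⟨_, rfl⟩
      have hW0 : W = 0 := by
        refine MvPolynomial.funext fun v => ?_
        have h1 := hv v
        rw [lf_pow, ml_sum hS p hp, ml_sum hS p' hp', ← sub_eq_zero, ← Finset.sum_sub_distrib] at h1
        rw [map_zero, ← h1, hW, map_sum]
        refine Finset.sum_congr rfl fun δ _ => ?_
        rw [eval_monomial, Finsupp.prod_fintype _ _ (fun i => pow_zero _)]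
        simp only [Finsupp.equivFunOnFinite_symm_apply_apply]
        ring
      have h2 : coeff (Finsupp.equivFunOnFinite.symm γ) W = 0 := by rw [hW0, coeff_zero]
      rw [hW, coeff_sum, Finset.sum_eq_single γ] at h2
      · rw [coeff_monomial, if_pos rfl] at h2
        have h3 : (Nat.multinomial univ γ : ℂ) ≠ 0 := by
          exact_mod_cast (Nat.multinomial_pos univ γ).ne'
        exact sub_eq_zero.1 ((mul_eq_zero.1 h2).resolve_left h3)
      · intro δ _ hδ
        rw [coeff_monomial, if_neg]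
        intro h
        exact hδ (Finsupp.equivFunOnFinite.symm.injective h)
      · intro h3
        exact absurd (mem_piAntidiag.2 ⟨hγ', fun i _ => mem_univ i⟩) h3
  have hPe : P = ∑ d ∈ P.support, C (coeff d P) * mo (fun i => d i) := by
    conv_lhs => rw [P.as_sum]
    refine Finset.sum_congr rfl fun d _ => ?_
    rw [monomial_eq, Finsupp.prod_fintype _ _ (fun i => pow_zero _), mo]
  rw [hPe, ml_sum hS p hp, ml_sum hS p' hp']
  refine Finset.sum_congr rfl fun d hd => ?_
  rw [hmo]
  have h3 := le_totalDegree hd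
  rw [Finsupp.sum_fintype _ _ (fun _ => rfl)] at h3
  exact h3.trans hP

end Pool.Agent.L7h35.TH
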